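import Pool.Agent.Helper8.Kak.DefsS

/-!
# Separation of names, module C7a (MP_013a6c_an), helper34
-/

set_option autoImplicit false

namespace KakC

namespace C7a

theorem length_Wd (t : ℕ → ℕ) : ∀ k i, (Wd t k i).length = h k
  | 0, i => by simp [Wd, h]
  | k + 1, j => by
    simp [Wd, h, List.length_flatMap, length_Wd t k]

theorem cat_zero (t : ℕ → ℕ) (k : ℕ) (f : ℕ → ℕ) (p : ℕ) : cat t k f p 0 = [] := by
  simp [cat]

theorem cat_succ (t : ℕ → ℕ) (k : ℕ) (f : ℕ → ℕ) (p s : ℕ) :
    cat t k f p (s + 1) = Wd t k (f p) ++ cat t k f (p + 1) s := by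
  simp [cat, List.range'_succ]

theorem cat_add (t : ℕ → ℕ) (k : ℕ) (f : ℕ → ℕ) (p s r : ℕ) :
    cat t k f p (s + r) = cat t k f p s ++ cat t k f (p + s) r := by
  induction s generalizing p with
  | zero => simp [cat_zero]
  | succ s ih =>
    rw [show s + 1 + r = (s + r) + 1 by ring, cat_succ, cat_succ, ih, List.append_assoc,
      show p + (s + 1) = p + 1 + s by ring]

theorem cat_congr (t : ℕ → ℕ) (k : ℕ) {f g : ℕ → ℕ} {p s : ℕ}
    (hfg : ∀ q, p ≤ q → q < p + s → f q = g q) : cat t k f p s = cat t k g p s := by
  unfold cat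
  refine List.flatMap_congr fun q hq => ?_
  rw [List.mem_range'_1] at hq
  rw [hfg q hq.1 hq.2]

/-- factors of a concatenation split -/
theorem split_append {α : Type*} {v w r : List α} (hv : v <:+: w ++ r) :
    ∃ v₁ v₂, v = v₁ ++ v₂ ∧ v₁ <:+: w ∧ v₂ <:+: r := by
  obtain ⟨pre, post, e⟩ := hv
  -- pre ++ v ++ post = w ++ r
  rcases le_total w.length pre.length with h1 | h1
  · -- v inside r
    refine ⟨[], v, rfl, List.nil_infix, ?_⟩
    have : pre = w ++ pre.drop w.length := by
      have h2 : w = (pre ++ v ++ post).take w.length := by rw [e]; simp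
      rw [List.append_assoc, List.take_append_of_le_length h1] at h2
      conv_lhs => rw [← List.take_append_drop w.length pre, ← h2]
    rw [this, List.append_assoc, List.append_assoc, List.append_cancel_left_eq] at e
    exact ⟨pre.drop w.length, post, by rw [← e, List.append_assoc]⟩
  · rcases le_total (pre ++ v).length w.length with h2 | h2
    · refine ⟨v, [], by simp, ?_, List.nil_infix⟩
      have h3 : w = (pre ++ v ++ post).take w.length := by rw [e]; simp
      rw [List.take_append, List.take_of_length_le h2] at h3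
      exact ⟨pre, post.take (w.length - (pre ++ v).length), h3.symm⟩
    · have h3 : w = (pre ++ v ++ post).take w.length := by rw [e]; simp
      have h4 : r = (pre ++ v ++ post).drop w.length := by rw [e]; simp
      rw [List.take_append_of_le_length h2, List.take_append, List.take_of_length_le h1] at h3
      rw [List.drop_append_of_le_length h2, List.drop_append, List.drop_of_length_le h1,
        List.nil_append] at h4
      refine ⟨v.take (w.length - pre.length), v.drop (w.length - pre.length),
        (List.take_append_drop _ _).symm, ⟨pre, [], ?_⟩, ⟨[], post, ?_⟩⟩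
      · rw [List.append_nil]; exact h3.symm
      · rw [List.nil_append]; exact h4.symm

/-- splitting a common subsequence along a splitting of the first word -/
theorem split_common {α : Type*} {u₁ u₂ v x : List α} (hu : x.Sublist (u₁ ++ u₂))
    (hv : x.Sublist v) :
    ∃ x₁ x₂ v₁ v₂, x = x₁ ++ x₂ ∧ v = v₁ ++ v₂ ∧ x₁.Sublist u₁ ∧ x₂.Sublist u₂ ∧
      x₁.Sublist v₁ ∧ x₂.Sublist v₂ := by
  obtain ⟨x₁, x₂, rfl, h1, h2⟩ := List.sublist_append_iff.mp hu
  obtain ⟨v₁, v₂, rfl, h3, h4⟩ := List.append_sublist_iff.mp hv
  exact ⟨x₁, x₂, v₁, v₂, rfl, rfl, h1, h2, h3, h4⟩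

theorem left_part {α : Type*} {a b w : List α} (hab : a ++ b <:+: w) : a <:+: w :=
  ((List.prefix_append a b).isInfix).trans hab

theorem right_part {α : Type*} {a b w : List α} (hab : a ++ b <:+: w) : b <:+: w :=
  ((List.suffix_append a b).isInfix).trans hab

end C7a

open C7a

theorem length_cat (t : ℕ → ℕ) (k : ℕ) (f : ℕ → ℕ) (p s : ℕ) :
    (cat t k f p s).length = s * h k := by
  simp [cat, List.length_flatMap, length_Wd]

/-- a factor of a concatenation of `k`-words is a factor of one with few `k`-words -/
theorem infix_cat {t : ℕ → ℕ} {k : ℕ} {f : ℕ → ℕ} {p s : ℕ} {u : List ℕ}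
    (hu : u <:+: cat t k f p s) :
    ∃ p' s', u <:+: cat t k f p' s' ∧ p ≤ p' ∧ p' + s' ≤ p + s ∧
      (s' : ℝ) * h k ≤ u.length + 2 * h k := by
  induction s generalizing p with
  | zero => exact ⟨p, 0, hu, le_rfl, le_rfl, by simp; positivity⟩
  | succ s ih =>
    by_cases h1 : u <:+: cat t k f (p + 1) s
    · obtain ⟨p', s', h2, h3, h4, h5⟩ := ih h1
      exact ⟨p', s', h2, by omega, by omega, h5⟩
    by_cases h1' : u <:+: cat t k f p s
    · obtain ⟨p', s', h2, h3, h4, h5⟩ := ih h1'
      exact ⟨p', s', h2, by omega, by omega, h5⟩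
    refine ⟨p, s + 1, hu, le_rfl, le_rfl, ?_⟩
    obtain ⟨pre, post, e⟩ := hu
    have hpre : pre.length < h k := by
      by_contra hcon
      rw [not_lt] at hcon
      apply h1
      have h4 := congrArg (List.drop (h k)) e
      rw [cat_succ, List.append_assoc, List.drop_append_of_le_length hcon,
        List.drop_append_of_le_length (by rw [length_Wd]), ← length_Wd t k (f p),
        List.drop_length, List.nil_append] at h4
      exact ⟨_, post, by rw [List.append_assoc, h4]⟩
    have hpost : post.length < h k := by
      by_contra hcon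
      rw [not_lt] at hcon
      apply h1'
      have hlen : (pre ++ u ++ post).length = s * h k + h k := by
        rw [e, length_cat]; ring
      have h4 := congrArg (List.take (s * h k)) e
      rw [show cat t k f p (s + 1) = cat t k f p s ++ cat t k f (p + s) 1 from cat_add t k f p s 1,
        List.take_append_of_le_length (l₁ := cat t k f p s) (by rw [length_cat]),
        List.take_of_length_le (l := cat t k f p s) (by rw [length_cat]),
        List.take_append] at h4
      have h5 : (pre ++ u).length ≤ s * h k := by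
        rw [List.length_append] at hlen; omega
      rw [List.take_of_length_le h5] at h4
      exact ⟨pre, _, h4⟩
    have hlen : pre.length + u.length + post.length = (s + 1) * h k := by
      rw [← length_cat t k f p (s + 1), ← e]; simp [add_assoc]
    have hlen' : (pre.length : ℝ) + u.length + post.length = (s + 1) * h k := by
      exact_mod_cast hlen
    have e1 : (pre.length : ℝ) < h k := by exact_mod_cast hpre
    have e2 : (post.length : ℝ) < h k := by exact_mod_cast hpost
    push_cast
    linarith

namespace C7a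

/-- (S1): `u` a factor of the `k`-word `i`, `v` a factor of a power of the `k`-word `i' ≠ i`. -/
theorem lcs_word_pow {t : ℕ → ℕ} {k : ℕ} {c ε : ℝ} (hc : 0 ≤ c) (hLB : LB t k c ε)
    {i i' : ℕ} (hi : i < N k) (hi' : i' < N k) (hne : i ≠ i') (s' : ℕ) :
    ∀ (p' : ℕ) (u v x : List ℕ), u <:+: Wd t k i → v <:+: cat t k (fun _ => i') p' s' →
      x.Sublist u → x.Sublist v →
      (x.length : ℝ) ≤ c * (u.length + v.length) + ε * (s' * h k) := by
  induction s' with
  | zero =>
    intro p' u v x _ hv _ hxv
    rw [cat_zero, List.infix_nil] at hv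
    subst hv
    rw [List.sublist_nil] at hxv
    subst hxv
    simp
    positivity
  | succ s' ih =>
    intro p' u v x hu hv hxu hxv
    rw [cat_succ] at hv
    obtain ⟨v₁, v₂, rfl, hv1, hv2⟩ := split_append hv
    obtain ⟨x₁, x₂, u₁, u₂, rfl, rfl, h1, h2, h3, h4⟩ := split_common hxv hxu
    have e1 := hLB i i' hi hi' hne u₁ v₁ x₁ (left_part hu) hv1 h3 h1
    have e2 := ih (p' + 1) u₂ v₂ x₂ (right_part hu) hv2 h4 h2
    simp only [List.length_append]
    push_cast
    linarith

theorem lcs_word_power {t : ℕ → ℕ} {k : ℕ} {c ε : ℝ} (hc : 0 ≤ c) (hε : 0 ≤ ε) (hLB : LB t k c ε)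
    {i i' : ℕ} (hi : i < N k) (hi' : i' < N k) (hne : i ≠ i') {p' s' : ℕ}
    {u v x : List ℕ} (hu : u <:+: Wd t k i) (hv : v <:+: cat t k (fun _ => i') p' s')
    (hxu : x.Sublist u) (hxv : x.Sublist v) :
    (x.length : ℝ) ≤ c * (u.length + v.length) + ε * (v.length + 2 * h k) := by
  obtain ⟨p'', s'', h1, _, _, h2⟩ := infix_cat hv
  have h3 := lcs_word_pow hc hLB hi hi' hne s'' p'' u v x hu h1 hxu hxv
  have h4 := mul_le_mul_of_nonneg_left h2 hε
  linarith

end C7a

/-- (S2): `u` a factor of a concatenation of `k`-words, `v` a factor of a power of one `k`-word. -/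
theorem lcs_power {t : ℕ → ℕ} {k : ℕ} {c ε : ℝ} (hc : 0 ≤ c) (hε : 0 ≤ ε) (hLB : LB t k c ε)
    {f : ℕ → ℕ} (hf : ∀ q, f q < N k) {i' : ℕ} (hi' : i' < N k) {p s p' s' : ℕ} {u v x : List ℕ}
    (hu : u <:+: cat t k f p s) (hv : v <:+: cat t k (fun _ => i') p' s')
    (hxu : x.Sublist u) (hxv : x.Sublist v) :
    (x.length : ℝ) ≤ c * (u.length + v.length) + ε * (v.length + 2 * s * h k) +
      h k * ((Finset.Ico p (p + s)).filter (fun q => f q = i')).card := by
  induction s generalizing p u v x with
  | zero =>
    rw [cat_zero, List.infix_nil] at hu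
    subst hu
    rw [List.sublist_nil] at hxu
    subst hxu
    simp
    positivity
  | succ s ih =>
    rw [cat_succ] at hu
    obtain ⟨u₁, u₂, rfl, hu1, hu2⟩ := split_append hu
    obtain ⟨x₁, x₂, v₁, v₂, rfl, rfl, h1, h2, h3, h4⟩ := split_common hxu hxv
    have e2 := ih hu2 (right_part hv) h2 h4
    have hcard : ((Finset.Ico p (p + (s + 1))).filter (fun q => f q = i')).card =
        (if f p = i' then 1 else 0) +
          ((Finset.Ico (p + 1) (p + 1 + s)).filter (fun q => f q = i')).card := by
      rw [show Finset.Ico p (p + (s + 1)) = insert p (Finset.Ico (p + 1) (p + 1 + s)) by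
        ext q; simp only [Finset.mem_Ico, Finset.mem_insert]; omega]
      rw [Finset.filter_insert]
      split_ifs with hif
      · rw [Finset.card_insert_of_notMem (by simp), add_comm]
      · simp
    rw [hcard]
    have hh : (0:ℝ) ≤ h k := by positivity
    have hv0 : (0:ℝ) ≤ v₁.length := by positivity
    have hu0 : (0:ℝ) ≤ u₁.length := by positivity
    split_ifs with hif
    · have e1 : (x₁.length : ℝ) ≤ h k := by
        have := (h1.length_le).trans hu1.length_le
        rw [length_Wd] at this
        exact_mod_cast this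
      have := mul_nonneg hc (add_nonneg hu0 hv0)
      have := mul_nonneg hε hv0
      have := mul_nonneg hε hh
      simp only [List.length_append]
      push_cast
      nlinarith
    · have e1 := lcs_word_power hc hε hLB (hf p) hi' hif hu1 (left_part hv) h1 h3
      simp only [List.length_append]
      push_cast
      nlinarith

end KakC
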