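import Pool.Agent.Helper34.Kak.C7a

/-!
# Separation of names, module C7b (MP_013a6c_an), helper34
-/

set_option autoImplicit false

namespace KakC

open C7a

namespace C7b

theorem count_period (R M' i' : ℕ) (hR : 0 < R) :
    (M' * R).count (fun q => (q / R) % M' = i') ≤ R := by
  rw [Nat.count_eq_card_filter_range]
  calc ((Finset.range (M' * R)).filter (fun q => (q / R) % M' = i')).card
      ≤ (Finset.Ico (i' * R) (i' * R + R)).card := by
        refine Finset.card_le_card fun q hq => ?_
        rw [Finset.mem_filter, Finset.mem_range] at hq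
        have h1 : q / R < M' := (Nat.div_lt_iff_lt_mul hR).mpr hq.1
        rw [Nat.mod_eq_of_lt h1] at hq
        rw [Finset.mem_Ico, ← hq.2]
        have h2 := Nat.div_add_mod q R
        have h3 := Nat.mod_lt q hR
        constructor
        · exact Nat.div_mul_le_self q R
        · rw [mul_comm]; omega
    _ = R := by simp

theorem count_periods (R M' i' : ℕ) (hR : 0 < R) (p m : ℕ) :
    ((Finset.Ico p (p + m * (M' * R))).filter (fun q => (q / R) % M' = i')).card ≤ m * R := by
  induction m generalizing p with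
  | zero => simp
  | succ m ih =>
    have hsplit : Finset.Ico p (p + (m + 1) * (M' * R)) =
        Finset.Ico p (p + M' * R) ∪ Finset.Ico (p + M' * R) (p + M' * R + m * (M' * R)) := by
      rw [Finset.Ico_union_Ico_eq_Ico (by omega) (by omega)]
      congr 1; ring
    rw [hsplit, Finset.filter_union]
    refine (Finset.card_union_le _ _).trans ?_
    have h1 : ((Finset.Ico p (p + M' * R)).filter (fun q => (q / R) % M' = i')).card ≤ R := by
      rw [Nat.filter_Ico_card_eq_of_periodic]
      · exact count_period R M' i' hR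
      · intro q
        simp only [Nat.add_mul_div_right _ _ hR, Nat.add_mod_right]
    have h2 := ih (p + M' * R)
    calc _ ≤ R + m * R := add_le_add h1 h2
      _ = (m + 1) * R := by ring

end C7b

theorem count_run {k e : ℕ} (p s i' : ℕ) :
    (((Finset.Ico p (p + s)).filter (fun q => (q / a k ^ e) % N k = i')).card : ℝ) ≤
      s / N k + a k ^ e := by
  have hR : 0 < a k ^ e := pow_pos (a_pos k) e
  have hN := N_pos k
  set m := s / (N k * a k ^ e) with hm
  have h1 : ((Finset.Ico p (p + s)).filter (fun q => (q / a k ^ e) % N k = i')).card ≤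
      (m + 1) * a k ^ e := by
    refine le_trans (Finset.card_le_card ?_) (C7b.count_periods (a k ^ e) (N k) i' hR p (m + 1))
    refine Finset.filter_subset_filter _ (Finset.Ico_subset_Ico le_rfl ?_)
    have := Nat.lt_div_mul_add (a := s) (b := N k * a k ^ e) (by positivity)
    rw [← hm] at this
    have h2 : (m + 1) * (N k * a k ^ e) = m * (N k * a k ^ e) + N k * a k ^ e := by ring
    omega
  have h2 : (m : ℝ) * a k ^ e ≤ s / N k := by
    rw [le_div_iff₀ (by exact_mod_cast hN)]
    have : m * (N k * a k ^ e) ≤ s := Nat.div_mul_le_self s _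
    have h3 : m * a k ^ e * N k ≤ s := by
      calc m * a k ^ e * N k = m * (N k * a k ^ e) := by ring
        _ ≤ s := this
    exact_mod_cast h3
  have h3 : (((Finset.Ico p (p + s)).filter (fun q => (q / a k ^ e) % N k = i')).card : ℝ) ≤
      (m + 1) * a k ^ e := by exact_mod_cast h1
  linarith

namespace C7b

/-- one run of `v` -/
theorem lcs_one_run {t : ℕ → ℕ} {k : ℕ} {c ε : ℝ} (hc : 0 ≤ c) (hε : 0 ≤ ε)
    (hLB : LB t k c ε) {e : ℕ} {i' : ℕ} (hi' : i' < N k) {p s p' s' : ℕ} {u v x : List ℕ}
    (hu : u <:+: cat t k (fun q => (q / a k ^ e) % N k) p s)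
    (hv : v <:+: cat t k (fun _ => i') p' s')
    (hxu : x.Sublist u) (hxv : x.Sublist v) :
    (x.length : ℝ) ≤ c * (u.length + v.length) + ε * (v.length + 2 * u.length + 4 * h k) +
      (u.length + 2 * h k) / N k + h k * a k ^ e := by
  obtain ⟨p₁, s₁, h1, _, _, h2⟩ := infix_cat hu
  have h3 := lcs_power hc hε hLB (fun q => Nat.mod_lt _ (N_pos k)) hi' h1 hv hxu hxv
  have h4 := count_run (k := k) (e := e) p₁ s₁ i'
  have hh : (0:ℝ) ≤ h k := by positivity
  have hN : (0:ℝ) < N k := by exact_mod_cast N_pos k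
  have h5 := mul_le_mul_of_nonneg_left h4 hh
  have h6 : (h k : ℝ) * (s₁ / N k + a k ^ e) = (s₁ * h k) / N k + h k * a k ^ e := by ring
  have h7 : ((s₁:ℝ) * h k) / N k ≤ (u.length + 2 * h k) / N k := by gcongr
  have h8 := mul_le_mul_of_nonneg_left h2 hε
  nlinarith

theorem lcs_many_runs {t : ℕ → ℕ} {k : ℕ} {c ε : ℝ} (hc : 0 ≤ c) (hε : 0 ≤ ε)
    (hLB : LB t k c ε) {e R : ℕ} (hR : 0 < R) (r : ℕ) :
    ∀ (p s p' s' : ℕ) (u v x : List ℕ), p' + s' ≤ (p' / R + r) * R →
    u <:+: cat t k (fun q => (q / a k ^ e) % N k) p s →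
    v <:+: cat t k (fun q => (q / R) % N k) p' s' →
    x.Sublist u → x.Sublist v →
    (x.length : ℝ) ≤ c * (u.length + v.length) + ε * (v.length + 2 * u.length) +
      u.length / N k + r * (ε * (4 * h k) + 2 * h k / N k + h k * a k ^ e) := by
  have hN : (0:ℝ) < N k := by exact_mod_cast N_pos k
  induction r with
  | zero =>
    intro p s p' s' u v x hps hu hv hxu hxv
    have : s' = 0 := by
      have := Nat.div_mul_le_self p' R
      simp only [add_zero] at hps
      omega
    subst this
    rw [cat_zero, List.infix_nil] at hv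
    subst hv
    rw [List.sublist_nil] at hxv
    subst hxv
    simp
    positivity
  | succ r ih =>
    intro p s p' s' u v x hps hu hv hxu hxv
    have hh : (0:ℝ) ≤ h k := by positivity
    have hstep : (0:ℝ) ≤ ε * (4 * h k) + 2 * h k / N k + h k * a k ^ e := by positivity
    have hconst : ∀ d : ℕ, p' + d ≤ (p' / R + 1) * R →
        cat t k (fun q => (q / R) % N k) p' d = cat t k (fun _ => (p' / R) % N k) p' d := by
      intro d hd
      refine cat_congr t k fun q h1 h2 => ?_
      have h3 : q / R = p' / R := by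
        apply le_antisymm
        · have : q / R < p' / R + 1 := by
            rw [Nat.div_lt_iff_lt_mul hR]; omega
          omega
        · exact Nat.div_le_div_right h1
      rw [h3]
    by_cases h1 : p' + s' ≤ (p' / R + 1) * R
    · rw [hconst s' h1] at hv
      have h2 := lcs_one_run hc hε hLB (Nat.mod_lt _ (N_pos k)) hu hv hxu hxv
      have h3 : (0:ℝ) ≤ r * (ε * (4 * h k) + 2 * h k / N k + h k * a k ^ e) := by positivity
      push_cast
      have h4 : ((u.length : ℝ) + 2 * h k) / N k = u.length / N k + 2 * h k / N k := by ring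
      rw [h4] at h2
      linarith
    · rw [not_le] at h1
      have h0 : p' < (p' / R + 1) * R := by
        have := Nat.lt_div_mul_add (a := p') hR
        calc p' < p' / R * R + R := this
          _ = _ := by ring
      obtain ⟨d, hd⟩ : ∃ d, p' + d = (p' / R + 1) * R := ⟨(p' / R + 1) * R - p', by omega⟩
      obtain ⟨s'', rfl⟩ : ∃ s'', s' = d + s'' := ⟨s' - d, by omega⟩
      rw [cat_add, hconst d hd.le] at hv
      obtain ⟨v₁, v₂, rfl, hv1, hv2⟩ := split_append hv
      obtain ⟨x₁, x₂, u₁, u₂, rfl, rfl, g1, g2, g3, g4⟩ := split_common hxv hxu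
      have e1 := lcs_one_run hc hε hLB (Nat.mod_lt _ (N_pos k)) (left_part hu) hv1 g3 g1
      have hdiv : (p' + d) / R = p' / R + 1 := by rw [hd, Nat.mul_div_cancel _ hR]
      have e2 := ih p s (p' + d) s'' u₂ v₂ x₂ (by
        rw [hdiv]
        have : (p' / R + (r + 1)) * R = (p' / R + 1 + r) * R := by ring
        omega) (right_part hu) hv2 g4 g2
      have h4 : ((u₁.length : ℝ) + 2 * h k) / N k = u₁.length / N k + 2 * h k / N k := by ring
      rw [h4] at e1
      have h5 : ((u₁.length : ℝ) + u₂.length) / N k = u₁.length / N k + u₂.length / N k := by ring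
      simp only [List.length_append]
      push_cast
      rw [h5]
      linarith

end C7b

/-- (S3) -/
theorem lcs_runs {t : ℕ → ℕ} {k : ℕ} {c ε : ℝ} (hc : 0 ≤ c) (hε : 0 ≤ ε) (hε1 : ε ≤ 1 / 8)
    (hLB : LB t k c ε) {e e' : ℕ} (he : e < e') {p s p' s' : ℕ} {u v x : List ℕ}
    (hu : u <:+: cat t k (fun q => (q / a k ^ e) % N k) p s)
    (hv : v <:+: cat t k (fun q => (q / a k ^ e') % N k) p' s')
    (hxu : x.Sublist u) (hxv : x.Sublist v) :
    (x.length : ℝ) ≤ (c + 2 * ε + 1 / N k + 3 / a k) * (u.length + v.length) +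
      (2 * a k ^ e + 3) * h k := by
  have hN : (512:ℝ) ≤ N k := by
    have : 2 ^ 9 ≤ N k := Nat.pow_le_pow_right (by norm_num) (by nlinarith [Nat.zero_le k])
    exact_mod_cast this
  have ha : (512:ℝ) ≤ a k := by
    have : 2 ^ 9 ≤ a k := Nat.pow_le_pow_right (by norm_num) (by omega)
    exact_mod_cast this
  have hh : (0:ℝ) ≤ h k := by positivity
  set R := a k ^ e' with hRdef
  have hR : 0 < R := pow_pos (a_pos k) e'
  obtain ⟨p₁, s₁, h1, _, _, h2⟩ := infix_cat hv
  set r := s₁ / R + 2 with hr
  have h3 := C7b.lcs_many_runs (e := e) hc hε hLB hR r p s p₁ s₁ u v x (by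
    have a1 := Nat.lt_div_mul_add (a := p₁) hR
    have a2 := Nat.lt_div_mul_add (a := s₁) hR
    have a3 : (p₁ / R + r) * R = (p₁ / R * R + R) + (s₁ / R * R + R) := by rw [hr]; ring
    omega) hu h1 hxu hxv
  set X : ℝ := (a k : ℝ) ^ e with hX
  have hX1 : 1 ≤ X := one_le_pow₀ (by linarith)
  -- R ≥ a X
  have hRr : (a k : ℝ) * X ≤ R := by
    have : (a k) ^ (e + 1) ≤ R := Nat.pow_le_pow_right (a_pos k) he
    have h' : ((a k : ℝ)) ^ (e + 1) ≤ R := by exact_mod_cast this
    rw [pow_succ] at h'
    linarith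
  have hR0 : (0:ℝ) < R := by exact_mod_cast hR
  have hY : ε * (4 * h k) + 2 * h k / N k + h k * X ≤ h k * (X + 51 / 100) := by
    have h5 : 2 * (h k : ℝ) / N k ≤ 2 * h k / 512 := by gcongr
    have h6 : ε * (4 * h k) ≤ 1 / 8 * (4 * h k) := by gcongr
    linarith
  have hrr : (r : ℝ) * R ≤ s₁ + 2 * R := by
    rw [hr]; push_cast
    have : s₁ / R * R ≤ s₁ := Nat.div_mul_le_self _ _
    have h' : ((s₁ / R : ℕ) : ℝ) * R ≤ s₁ := by exact_mod_cast this
    linarith
  -- r * h * (X + 51/100) ≤ 2 (X+51/100) h + (|v| + 2 h) (X + 51/100) / R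
  have h7 : (r : ℝ) * (h k * (X + 51 / 100)) ≤
      2 * (X + 51 / 100) * h k + (v.length + 2 * h k) * (2 / a k) := by
    have h8 : (X + 51 / 100) / R ≤ 2 / a k := by
      rw [div_le_div_iff₀ hR0 (by linarith)]
      nlinarith
    have h9 : (r : ℝ) * (h k * (X + 51 / 100)) = ((r : ℝ) * R) * h k * ((X + 51 / 100) / R) := by
      field_simp
    have h10 : 0 ≤ (X + 51 / 100) / R := by positivity
    calc (r : ℝ) * (h k * (X + 51 / 100)) = ((r : ℝ) * R) * h k * ((X + 51 / 100) / R) := h9
      _ ≤ (s₁ + 2 * R) * h k * ((X + 51 / 100) / R) := by gcongr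
      _ = 2 * (X + 51 / 100) * h k + (s₁ * h k) * ((X + 51 / 100) / R) := by
          field_simp
          ring
      _ ≤ 2 * (X + 51 / 100) * h k + (v.length + 2 * h k) * (2 / a k) := by
          gcongr
  have h11 : (r : ℝ) * (ε * (4 * h k) + 2 * h k / N k + h k * X) ≤
      (r : ℝ) * (h k * (X + 51 / 100)) := by gcongr
  have h12 : (2 : ℝ) * h k * (2 / a k) ≤ 2 * h k * (2 / 512) := by gcongr
  have hu0 : (0:ℝ) ≤ u.length := by positivity
  have hv0 : (0:ℝ) ≤ v.length := by positivity
  have h13 : (v.length : ℝ) * (2 / a k) ≤ v.length * (3 / a k) := by gcongr; norm_num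
  have h14 : 0 ≤ (v.length : ℝ) / N k := by positivity
  have h15 : 0 ≤ (u.length : ℝ) * (3 / a k) := by positivity
  have h16 : (c + 2 * ε + 1 / N k + 3 / a k) * (u.length + v.length) =
      c * (u.length + v.length) + 2 * ε * u.length + 2 * ε * v.length + u.length / N k +
        v.length / N k + u.length * (3 / a k) + v.length * (3 / a k) := by ring
  rw [h16]
  have h17 := mul_nonneg hε hv0
  nlinarith

end KakC
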